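import Pool.Graph.R_seed8.Helper484.Crit.FQ
import Pool.Graph.R_seed8.Helper484.Crit.FN

/-!
Cells: parallelograms covered by `m` translates. The best cell gives the parametric density.
-/

set_option autoImplicit false

namespace Pool.Agent.H40.CR.Cell

open Pool.Agent.Helper484.Crit Pool.Agent.Helper484.Crit.FN Pool.Agent.Helper484.Crit.FJ
open Pool.Agent.Helper484.Crit.FQ (cr_rot rot_inv rot_inv')

open MeasureTheory Set Filter Topology
open scoped ENNReal Pointwise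

/-- `k` copies of a covered parallelogram in a row. -/
theorem cell_lower (K : Set P) (hKc : Convex ℝ K) {m : ℕ} {p d e κ κ' : P}
    (hcov : CoveredBy K m (para p d e)) (h5 : κ ∈ K) (h6 : κ' ∈ K)
    (θ : ℝ) (hθ : 0 ≤ θ) (n : ℕ) (hn : 1 ≤ n) :
    ∃ D : Set P, IsCompact D ∧ Convex ℝ D ∧ CoveredBy K (n * m) D ∧
      ENNReal.ofReal (n * (|cr d e| + θ * |cr d (κ - κ')|)) ≤ volume (D + θ • K) := by
  have hnR : (1:ℝ) ≤ n := by exact_mod_cast hn
  obtain ⟨a, b, ha, hb, hab⟩ : ∃ a b : P, a ∈ K ∧ b ∈ K ∧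
      |cr d e + θ * cr d (a - b)| = |cr d e| + θ * |cr d (κ - κ')| := by
    have hsw : cr d (κ' - κ) = - cr d (κ - κ') := by
      unfold cr; simp only [Prod.fst_sub, Prod.snd_sub]; ring
    rcases le_total 0 (cr d e) with hx | hx <;> rcases le_total 0 (cr d (κ - κ')) with hy | hy
    · refine ⟨κ, κ', h5, h6, ?_⟩
      rw [abs_of_nonneg hx, abs_of_nonneg hy, abs_of_nonneg (by positivity)]
    · refine ⟨κ', κ, h6, h5, ?_⟩
      rw [hsw, abs_of_nonneg hx, abs_of_nonpos hy, abs_of_nonneg]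
      have : 0 ≤ θ * -cr d (κ - κ') := mul_nonneg hθ (by linarith)
      linarith
    · refine ⟨κ', κ, h6, h5, ?_⟩
      rw [hsw, abs_of_nonpos hx, abs_of_nonneg hy, abs_of_nonpos]
      · ring
      · have : 0 ≤ θ * cr d (κ - κ') := mul_nonneg hθ hy
        linarith
    · refine ⟨κ, κ', h5, h6, ?_⟩
      rw [abs_of_nonpos hx, abs_of_nonpos hy, abs_of_nonpos]
      · ring
      · have : 0 ≤ θ * -cr d (κ - κ') := mul_nonneg hθ (by linarith)
        linarith
  refine ⟨para p ((n:ℝ) • d) e, para_compact _ _ _, para_convex _ _ _, ?_, ?_⟩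
  · obtain ⟨x, hx⟩ := hcov
    refine ⟨fun i => (((finProdFinEquiv.symm i).1 : ℕ) : ℝ) • d + x (finProdFinEquiv.symm i).2, ?_⟩
    rintro _ ⟨⟨t, u⟩, ⟨ht, hu⟩, rfl⟩
    simp only [mem_Icc] at ht hu
    obtain ⟨i, hi, hi1, hi2⟩ := floor_aux n hn (t * n) (by nlinarith) (by nlinarith)
    obtain ⟨s, hs⟩ : ∃ s : ℝ, s = t * n - i := ⟨_, rfl⟩
    rw [← hs] at hi1 hi2
    obtain ⟨j, hj⟩ := hx (p + s • d + u • e) ⟨(s, u), ⟨⟨hi1, hi2⟩, hu⟩, rfl⟩
    refine ⟨finProdFinEquiv (⟨i, hi⟩, j), ?_⟩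
    simp only [Equiv.symm_apply_apply]
    convert hj using 1
    rw [hs]
    module
  · have hsub : para (p + θ • b) ((n:ℝ) • d) (e + θ • (a - b)) ⊆ para p ((n:ℝ) • d) e + θ • K := by
      rintro _ ⟨⟨t, u⟩, ⟨ht, hu⟩, rfl⟩
      rw [Set.mem_add]
      refine ⟨p + t • ((n:ℝ) • d) + u • e, ⟨(t, u), ⟨ht, hu⟩, rfl⟩, θ • ((1 - u) • b + u • a), ?_, ?_⟩
      · exact Set.smul_mem_smul_set (hKc hb ha (by linarith [hu.2]) hu.1 (by ring))
      · simp only
        module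
    refine le_trans ?_ (measure_mono hsub)
    rw [para_volume]
    apply ENNReal.ofReal_le_ofReal
    have : cr ((n:ℝ) • d) (e + θ • (a - b)) = n * (cr d e + θ * cr d (a - b)) := by
      unfold cr
      simp only [Prod.smul_fst, Prod.smul_snd, Prod.fst_add, Prod.snd_add, Prod.fst_sub,
        Prod.snd_sub, smul_eq_mul]
      ring
    rw [this, abs_mul, abs_of_nonneg (by linarith : (0:ℝ) ≤ n), hab]

/-- `ρ` bounds the values of all cells. -/
def CB (K : Set P) (θ ρ : ℝ) : Prop :=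
  ∀ (m : ℕ) (p d e κ κ' : P), CoveredBy K m (para p d e) → κ ∈ K → κ' ∈ K →
    |cr d e| + θ * |cr d (κ - κ')| ≤ ρ * m

/-- A bound for the cells is a bound for the density. -/
theorem cell_upper (K : Set P) (hK : IsCompact K) (hKc : Convex ℝ K) (hK0 : (0 : P) ∈ K)
    (θ ρ : ℝ) (hθ : 0 ≤ θ) (hρ : 0 ≤ ρ) (hc : CB K θ ρ) (ε : ℝ) (hε : 0 < ε) :
    ∃ n₀ : ℕ, ∀ n ≥ n₀, ∀ D : Set P, IsCompact D → Convex ℝ D → CoveredBy K n D →
      volume (D + θ • K) ≤ ENNReal.ofReal ((ρ + ε) * n) := by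
  obtain ⟨C, hC⟩ := hK.isBounded.exists_norm_le
  have hC1 : ∀ z ∈ K, |z.1| ≤ C ∧ |z.2| ≤ C := by
    intro z hz
    have h := hC z hz
    constructor
    · exact (norm_fst_le z).trans h
    · exact (norm_snd_le z).trans h
  have hκ : ∀ c s : ℝ, c ^ 2 + s ^ 2 = 1 → ∀ z ∈ rot c s '' K, |z.1| ≤ 2 * C ∧ |z.2| ≤ 2 * C := by
    rintro c s h z ⟨x, hx, rfl⟩
    obtain ⟨h1, h2⟩ := hC1 x hx
    have hc : |c| ≤ 1 := by
      rw [← sq_le_one_iff_abs_le_one]; nlinarith [sq_nonneg s]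
    have hs : |s| ≤ 1 := by
      rw [← sq_le_one_iff_abs_le_one]; nlinarith [sq_nonneg c]
    simp only [rot, LinearMap.coe_mk, AddHom.coe_mk]
    have m1 : |c * x.1| ≤ C := by
      rw [abs_mul]
      calc |c| * |x.1| ≤ 1 * |x.1| := mul_le_mul_of_nonneg_right hc (abs_nonneg _)
        _ ≤ C := by rw [one_mul]; exact h1
    have m2 : |s * x.2| ≤ C := by
      rw [abs_mul]
      calc |s| * |x.2| ≤ 1 * |x.2| := mul_le_mul_of_nonneg_right hs (abs_nonneg _)
        _ ≤ C := by rw [one_mul]; exact h2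
    have m3 : |-s * x.1| ≤ C := by
      rw [abs_mul, abs_neg]
      calc |s| * |x.1| ≤ 1 * |x.1| := mul_le_mul_of_nonneg_right hs (abs_nonneg _)
        _ ≤ C := by rw [one_mul]; exact h1
    have m4 : |c * x.2| ≤ C := by
      rw [abs_mul]
      calc |c| * |x.2| ≤ 1 * |x.2| := mul_le_mul_of_nonneg_right hc (abs_nonneg _)
        _ ≤ C := by rw [one_mul]; exact h2
    constructor
    · exact (abs_add_le _ _).trans (by linarith)
    · exact (abs_add_le _ _).trans (by linarith)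
  refine assemble K hK hKc hK0 θ ρ (2 * C) hθ hρ hκ ?_ ε hε
  intro c s h
  have hcont : Continuous (rot c s) := LinearMap.continuous_of_finiteDimensional (rot c s)
  have hK1 : IsCompact (rot c s '' K) := hK.image hcont
  have hne : (rot c s '' K).Nonempty := ⟨_, ⟨0, hK0, rfl⟩⟩
  obtain ⟨a, haK, ha⟩ := hK1.exists_isMaxOn hne (continuous_snd.continuousOn)
  obtain ⟨b, hbK, hb⟩ := hK1.exists_isMinOn hne (continuous_snd.continuousOn)
  refine ⟨-b.2, a.2, ?_, ?_, ?_, ?_⟩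
  · have := (abs_le.1 (hκ c s h b hbK).2).1
    linarith
  · exact (abs_le.1 (hκ c s h a haK).2).2
  · intro z hz
    refine ⟨?_, ha hz⟩
    have : b.2 ≤ z.2 := hb hz
    linarith
  · intro M w x₀ y₀ n z hM hw hcov
    obtain ⟨a0, ha0, rfl⟩ := haK
    obtain ⟨b0, hb0, rfl⟩ := hbK
    have hmain := hc n (rot c (-s) (x₀, y₀)) (rot c (-s) (M, 0)) (rot c (-s) (0, w)) a0 b0 ?_ ha0 hb0
    · have h' : c ^ 2 + (-s) ^ 2 = 1 := by rw [neg_sq]; exact h
      have e1 : cr (rot c (-s) (M, 0)) (rot c (-s) (0, w)) = M * w := by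
        rw [cr_rot h']
        simp [cr]
      have e2 : cr (rot c (-s) (M, 0)) (a0 - b0) = M * ((rot c s a0).2 - (rot c s b0).2) := by
        have e3 : a0 - b0 = rot c (-s) (rot c s (a0 - b0)) := (rot_inv h _).symm
        rw [e3, cr_rot h', map_sub]
        simp [cr]
      have e4 : 0 ≤ (rot c s a0).2 - (rot c s b0).2 := by
        have h4 : (rot c s b0).2 ≤ (rot c s a0).2 := ha ⟨b0, hb0, rfl⟩
        linarith
      rw [e1, e2, abs_of_nonneg (by positivity), abs_of_nonneg (by positivity)] at hmain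
      have e5 : M * (w + θ * (-(rot c s b0).2 + (rot c s a0).2)) =
          M * w + θ * (M * ((rot c s a0).2 - (rot c s b0).2)) := by ring
      rw [e5]
      exact hmain
    · refine ⟨fun i => rot c (-s) (z i), ?_⟩
      rintro _ ⟨⟨t, u⟩, ⟨ht, hu⟩, rfl⟩
      simp only [mem_Icc] at ht hu
      obtain ⟨i, y, hy, hyz⟩ := hcov (x₀ + t * M) ⟨by nlinarith, by nlinarith⟩ (y₀ + u * w)
        ⟨by nlinarith, by nlinarith⟩
      refine ⟨i, ?_⟩
      have e6 : rot c (-s) (x₀, y₀) + t • rot c (-s) (M, 0) + u • rot c (-s) (0, w) -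
          rot c (-s) (z i) = rot c (-s) ((x₀ + t * M, y₀ + u * w) - z i) := by
        rw [← map_smul, ← map_smul, ← map_add, ← map_add, ← map_sub]
        congr 1
        ext <;> simp
      simp only
      rw [e6, ← hyz, rot_inv h]
      exact hy

end Pool.Agent.H40.CR.Cell
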