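import Pool.Graph.R_seed8.Helper484.Crit.FS

/-!
Adapted from `Pool/Graph/R_seed8/Helper484/Crit/FS.lean`, which is the case `θ = 1 / 4`: the weights
`3 / 4`, `1 / 4` of a directed edge of a Delaunay triangle are replaced by `1 - θ`, `θ`.
-/

set_option autoImplicit false

namespace Pool.Agent.H40.CR.FS

open Pool.Agent.Helper484.Crit Pool.Agent.Helper484.Crit.FI Pool.Agent.Helper484.Crit.FH
  Pool.Agent.Helper484.Crit.FG
open Pool.Agent.Helper484.Crit.FS (abs_cr_le rho TT mem_TT rho_mem sum_rho Mid mid_one del_ne sum_mid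
  card_TT vc vc_spec vc_eq pt pt_spec pt_eq ar line_null)

open MeasureTheory Set Filter Topology
open scoped ENNReal Pointwise

/-- `S` bounds parallelogram area plus `θ` times the width for all inscribed parallelograms of
`B`. -/
def HT (B : Set P) (θ S : ℝ) : Prop :=
  ∀ k d e κ κ' : P, k ∈ B → k + d ∈ B → k + e ∈ B → k + d + e ∈ B → κ ∈ B → κ' ∈ B →
    |cr d e| + θ * |cr d (κ - κ')| ≤ S

/-- The quantity attached to a directed edge of a triangle. -/
noncomputable def hh (θ : ℝ) (v a b c : P) : ℝ :=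
  (1 - θ) * cr (b - a) (v - a) + θ * cr (b - a) (c - a)

theorem hh_rot (θ : ℝ) (v a b c : P) :
    hh θ v a b c + hh θ v b c a + hh θ v c a b = (1 + 2 * θ) * cr (b - a) (c - a) := by
  simp only [hh, cr, Prod.fst_sub, Prod.snd_sub]; ring

theorem hh_pair {N : P → ℝ} {F : Finset P} {θ G : ℝ} (hθ : 0 ≤ θ) (hG : HT {z | N z ≤ 1} θ G)
    {v v' a b c c' : P} (hd : Del N F v a b c) (hd' : Del N F v' b a c') :
    hh θ v a b c + hh θ v' b a c' ≤ G := by
  obtain ⟨_, _, _, h1, h2, h3, _, _⟩ := hd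
  obtain ⟨_, _, _, h1', h2', h3', _, _⟩ := hd'
  have key := hG (v - b) (b - a) (v' - v) (v - c) (v' - c')
    (by simp only [mem_ofPred_eq]; rw [h2]; exact h1)
    (by simp only [mem_ofPred_eq, sub_add_sub_cancel]; exact h1)
    (by simp only [mem_ofPred_eq, sub_add_sub_cancel']; exact h1')
    (by simp only [mem_ofPred_eq, sub_add_sub_cancel]
        rw [show v - a + (v' - v) = v' - a by abel, h2']; exact h1')
    (by simp only [mem_ofPred_eq]; rw [h3]; exact h1)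
    (by simp only [mem_ofPred_eq]; rw [h3']; exact h1')
  have e : hh θ v a b c + hh θ v' b a c' =
      -(cr (b - a) (v' - v)) - θ * cr (b - a) (v - c - (v' - c')) := by
    simp only [hh, cr, Prod.fst_sub, Prod.snd_sub]; ring
  rw [e]
  have h5 := neg_abs_le (cr (b - a) (v' - v))
  have h6 := mul_le_mul_of_nonneg_left (neg_abs_le (cr (b - a) (v - c - (v' - c')))) hθ
  linarith

theorem hh_le {N : P → ℝ} {F : Finset P} {θ R : ℝ} (hθ : 0 ≤ θ) (hR : ∀ z, N z ≤ 1 → ‖z‖ ≤ R)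
    {v a b c : P} (hd : Del N F v a b c) : hh θ v a b c ≤ (4 + 12 * θ) * R ^ 2 := by
  obtain ⟨_, _, _, h1, h2, h3, _, _⟩ := hd
  have ha := hR _ h1
  have hb := hR _ (h2.trans_le h1)
  have hc := hR _ (h3.trans_le h1)
  have hR0 : 0 ≤ R := (norm_nonneg _).trans ha
  have hba : ‖b - a‖ ≤ 2 * R := by
    calc ‖b - a‖ = ‖(v - a) - (v - b)‖ := by congr 1; abel
      _ ≤ ‖v - a‖ + ‖v - b‖ := norm_sub_le _ _
      _ ≤ 2 * R := by linarith
  have hca : ‖c - a‖ ≤ 2 * R := by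
    calc ‖c - a‖ = ‖(v - a) - (v - c)‖ := by congr 1; abel
      _ ≤ ‖v - a‖ + ‖v - c‖ := norm_sub_le _ _
      _ ≤ 2 * R := by linarith
  have k0 : |cr (b - a) (v - a)| ≤ 4 * R ^ 2 := by
    refine (abs_cr_le _ _).trans ?_
    nlinarith [norm_nonneg (b - a), norm_nonneg (v - a)]
  have k1 : (1 - θ) * cr (b - a) (v - a) ≤ (1 + θ) * (4 * R ^ 2) := by
    have k3 := abs_le.1 k0
    nlinarith [k3.1, k3.2]
  have k2 : cr (b - a) (c - a) ≤ 8 * R ^ 2 := by
    refine (le_abs_self _).trans ((abs_cr_le _ _).trans ?_)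
    nlinarith [norm_nonneg (b - a), norm_nonneg (c - a)]
  unfold hh
  have k4 := mul_le_mul_of_nonneg_left k2 hθ
  linarith

section
open Classical

/-- The weight of a triple. -/
noncomputable def ht (θ : ℝ) (N : P → ℝ) (F : Finset P) (t : P × P × P) : ℝ :=
  hh θ (vc N F t) t.1 t.2.1 t.2.2

theorem sum_ht {N : P → ℝ} (hN : Gau N) (F F1 F2 : Finset P) (hF1 : F1 ⊆ F) (hF2 : F2 ⊆ F1)
    (hx : ∀ a ∈ F, ∀ b ∈ F, a.1 = b.1 → a = b)
    (hgen : ∀ (v : P) (r : ℝ), (F.filter (fun x => N (v - x) = r)).card ≤ 3)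
    (θ G R : ℝ) (hθ : 0 ≤ θ) (hG : HT {z | N z ≤ 1} θ G) (hR : ∀ z, N z ≤ 1 → ‖z‖ ≤ R)
    (hcov : ∀ a ∈ F1, ∀ v : P, ‖v - a‖ ≤ 3 * R + 3 → ∃ x ∈ F, N (v - x) ≤ 1)
    (hbd : ∀ a ∈ F1, ∀ c ∈ F, c ∉ F1 → ‖c - a‖ ≤ 4 * R → a ∈ F2) :
    ∑ t ∈ TT N F F1, ht θ N F t ≤ 3 * G * F1.card + 6 * (4 + 12 * θ) * R ^ 2 * F2.card := by
  have hN0 : N 0 = 0 := by
    have := hN.hom 0 0 le_rfl
    simpa using this
  have hR0 : 0 ≤ R := by
    have := hR 0 (by rw [hN0]; exact zero_le_one)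
    simpa using this
  have hG0 : 0 ≤ G := by
    have := hG 0 0 0 0 0 (by simp [hN0]) (by simp [hN0]) (by simp [hN0]) (by simp [hN0])
      (by simp [hN0]) (by simp [hN0])
    simpa [cr] using this
  set T := TT N F F1 with hT
  set S := T.filter (fun t => pt N F t ∈ T) with hS
  set U := T.filter (fun t => ¬ pt N F t ∈ T) with hU
  have hsplit : ∑ t ∈ T, ht θ N F t = ∑ t ∈ S, ht θ N F t + ∑ t ∈ U, ht θ N F t :=
    (Finset.sum_filter_add_sum_filter_not T _ _).symm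
  -- partner structure
  have hpart : ∀ a b c : P, (a, b, c) ∈ T → ∃ v v' c', Del N F v a b c ∧ Del N F v' b a c' ∧
      pt N F (a, b, c) = (b, a, c') := by
    intro a b c ht
    rw [hT, mem_TT] at ht
    obtain ⟨⟨ha, hb, hc⟩, v, hv⟩ := ht
    simp only at ha hb hc hv
    obtain ⟨v', c', hd'⟩ := exists_nbr hN F R hgen hR v a b c hv (hcov a ha)
    exact ⟨v, v', c', hv, hd', pt_eq hN hgen hd'⟩
  have hptpt : ∀ t ∈ T, pt N F (pt N F t) = t := by
    rintro ⟨a, b, c⟩ ht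
    obtain ⟨v, v', c', h1, h2, h3⟩ := hpart a b c ht
    rw [h3]
    exact pt_eq hN hgen h1
  have hSinv : ∀ t ∈ S, pt N F t ∈ S := by
    intro t ht
    rw [hS, Finset.mem_filter] at ht ⊢
    exact ⟨ht.2, by rw [hptpt t ht.1]; exact ht.1⟩
  have hSsum : ∑ t ∈ S, ht θ N F (pt N F t) = ∑ t ∈ S, ht θ N F t := by
    refine Finset.sum_nbij' (pt N F) (pt N F) hSinv hSinv ?_ ?_ ?_
    · intro t ht
      exact hptpt t (Finset.mem_filter.1 ht).1
    · intro t ht
      exact hptpt t (Finset.mem_filter.1 ht).1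
    · intro t ht
      rfl
  have hpair : ∀ t ∈ S, ht θ N F t + ht θ N F (pt N F t) ≤ G := by
    rintro ⟨a, b, c⟩ ht
    obtain ⟨v, v', c', h1, h2, h3⟩ := hpart a b c (Finset.mem_filter.1 ht).1
    rw [h3]
    simp only [CR.FS.ht, vc_eq hN hgen h1, vc_eq hN hgen h2]
    exact hh_pair hθ hG h1 h2
  have hScard : (S.card : ℝ) ≤ 6 * F1.card :=
    le_trans (by exact_mod_cast Finset.card_le_card (Finset.filter_subset _ _))
      (card_TT hN hF1 hx hgen)
  have h1 : 2 * ∑ t ∈ S, ht θ N F t ≤ G * S.card := by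
    calc 2 * ∑ t ∈ S, ht θ N F t = ∑ t ∈ S, (ht θ N F t + ht θ N F (pt N F t)) := by
          rw [Finset.sum_add_distrib, hSsum]; ring
      _ ≤ ∑ t ∈ S, G := Finset.sum_le_sum hpair
      _ = G * S.card := by rw [Finset.sum_const, nsmul_eq_mul]; ring
  have h2 : ∑ t ∈ S, ht θ N F t ≤ 3 * G * F1.card := by nlinarith
  -- unpaired triples
  have hUsub : U ⊆ TT N F F2 := by
    rintro ⟨a, b, c⟩ ht
    rw [hU, Finset.mem_filter] at ht
    obtain ⟨hT1, hT2⟩ := ht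
    obtain ⟨v, v', c', k1, k2, k3⟩ := hpart a b c hT1
    rw [hT, mem_TT] at hT1
    obtain ⟨⟨ha, hb, hc⟩, _⟩ := hT1
    simp only at ha hb hc
    have hc'F : c' ∈ F := k2.2.2.1
    have hc' : c' ∉ F1 := by
      intro hc'
      apply hT2
      rw [k3, hT, mem_TT]
      exact ⟨⟨hb, ha, hc'⟩, v', k2⟩
    obtain ⟨_, _, _, m1, m2, m3, _, _⟩ := k1
    obtain ⟨_, _, _, m1', m2', m3', _, _⟩ := k2
    have n1 := hR _ m1
    have n2 := hR _ (m2.trans_le m1)
    have n3 := hR _ (m3.trans_le m1)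
    have n1' := hR _ m1'
    have n2' := hR _ (m2'.trans_le m1')
    have n3' := hR _ (m3'.trans_le m1')
    have da : ‖c' - a‖ ≤ 4 * R := by
      calc ‖c' - a‖ = ‖(v' - a) - (v' - c')‖ := by congr 1; abel
        _ ≤ ‖v' - a‖ + ‖v' - c'‖ := norm_sub_le _ _
        _ ≤ 4 * R := by linarith
    have db : ‖c' - b‖ ≤ 4 * R := by
      calc ‖c' - b‖ = ‖(v' - b) - (v' - c')‖ := by congr 1; abel
        _ ≤ ‖v' - b‖ + ‖v' - c'‖ := norm_sub_le _ _
        _ ≤ 4 * R := by linarith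
    have dc : ‖c' - c‖ ≤ 4 * R := by
      calc ‖c' - c‖ = ‖((v' - a) - (v' - c')) + ((v - c) - (v - a))‖ := by congr 1; abel
        _ ≤ ‖(v' - a) - (v' - c')‖ + ‖(v - c) - (v - a)‖ := norm_add_le _ _
        _ ≤ (‖v' - a‖ + ‖v' - c'‖) + (‖v - c‖ + ‖v - a‖) :=
            add_le_add (norm_sub_le _ _) (norm_sub_le _ _)
        _ ≤ 4 * R := by linarith
    rw [mem_TT]
    exact ⟨⟨hbd a ha c' hc'F hc' da, hbd b hb c' hc'F hc' db, hbd c hc c' hc'F hc' dc⟩,
      v, ⟨by assumption, by assumption, by assumption, m1, m2, m3, by assumption, by assumption⟩⟩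
  have hUcard : (U.card : ℝ) ≤ 6 * F2.card :=
    le_trans (by exact_mod_cast Finset.card_le_card hUsub)
      (card_TT hN (hF2.trans hF1) hx hgen)
  have h3 : ∑ t ∈ U, ht θ N F t ≤ 6 * (4 + 12 * θ) * R ^ 2 * F2.card := by
    calc ∑ t ∈ U, ht θ N F t ≤ ∑ t ∈ U, (4 + 12 * θ) * R ^ 2 := by
          apply Finset.sum_le_sum
          rintro ⟨a, b, c⟩ ht
          obtain ⟨v, v', c', k1, k2, k3⟩ := hpart a b c (Finset.mem_filter.1 ht).1
          simp only [CR.FS.ht, vc_eq hN hgen k1]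
          exact hh_le hθ hR k1
      _ = (4 + 12 * θ) * R ^ 2 * U.card := by rw [Finset.sum_const, nsmul_eq_mul]; ring
      _ ≤ (4 + 12 * θ) * R ^ 2 * (6 * F2.card) :=
          mul_le_mul_of_nonneg_left hUcard (by positivity)
      _ = 6 * (4 + 12 * θ) * R ^ 2 * F2.card := by ring
  rw [hsplit]
  linarith

theorem sum_ar {N : P → ℝ} (hN : Gau N) (F F1 : Finset P) (hF1 : F1 ⊆ F)
    (hx : ∀ a ∈ F, ∀ b ∈ F, a.1 = b.1 → a = b)
    (hgen : ∀ (v : P) (r : ℝ), (F.filter (fun x => N (v - x) = r)).card ≤ 3) (θ : ℝ) :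
    (2 + 4 * θ) * ∑ t ∈ (TT N F F1).filter Mid, ar t / 2 = ∑ t ∈ TT N F F1, ht θ N F t := by
  have h1 := sum_mid (N := N) hF1 hx ar (by
    rintro ⟨a, b, c⟩
    simp only [ar, rho, Equiv.coe_fn_mk, cr, Prod.fst_sub, Prod.snd_sub]
    ring)
  have h2 : ∑ t ∈ TT N F F1, (ht θ N F t + ht θ N F (rho t) + ht θ N F (rho (rho t))) =
      3 * ∑ t ∈ TT N F F1, ht θ N F t := by
    rw [Finset.sum_add_distrib, Finset.sum_add_distrib, sum_rho (fun t => ht θ N F t),
      sum_rho (fun t => ht θ N F (rho t)), sum_rho (fun t => ht θ N F t)]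
    ring
  have h3 : ∑ t ∈ TT N F F1, (ht θ N F t + ht θ N F (rho t) + ht θ N F (rho (rho t))) =
      ∑ t ∈ TT N F F1, (1 + 2 * θ) * ar t := by
    apply Finset.sum_congr rfl
    rintro ⟨a, b, c⟩ ht
    rw [mem_TT] at ht
    obtain ⟨_, v, hv⟩ := ht
    simp only at hv
    have e1 := vc_eq hN hgen hv
    have e2 := vc_eq hN hgen (del_rot hv)
    have e3 := vc_eq hN hgen (del_rot (del_rot hv))
    simp only [CR.FS.ht, rho, Equiv.coe_fn_mk, e1, e2, e3, ar]
    exact hh_rot θ v a b c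
  rw [← Finset.mul_sum] at h3
  rw [← Finset.sum_div]
  rw [h1] at h3
  linarith

theorem structure_ineq {N : P → ℝ} (hN : Gau N) (F F1 F2 : Finset P) (hF1 : F1 ⊆ F) (hF2 : F2 ⊆ F1)
    (hx : ∀ a ∈ F, ∀ b ∈ F, a.1 = b.1 → a = b)
    (hgen : ∀ (v : P) (r : ℝ), (F.filter (fun x => N (v - x) = r)).card ≤ 3)
    (θ S G R : ℝ) (hθ : 0 ≤ θ) (hSG : 3 * S = (2 + 4 * θ) * G) (hG : HT {z | N z ≤ 1} θ S)
    (hR : ∀ z, N z ≤ 1 → ‖z‖ ≤ R)
    (hcov : ∀ a ∈ F1, ∀ v : P, ‖v - a‖ ≤ 3 * R + 3 → ∃ x ∈ F, N (v - x) ≤ 1)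
    (hbd : ∀ a ∈ F1, ∀ c ∈ F, c ∉ F1 → ‖c - a‖ ≤ 4 * R → a ∈ F2)
    (B : Set P) (hB1 : ∀ p ∈ B, ∀ x ∈ F, ‖x - p‖ ≤ 2 * R + 1 → x ∈ F1)
    (hB2 : ∀ p ∈ B, ∀ v : P, ‖v - p‖ ≤ R + 1 → ∃ x ∈ F, N (v - x) ≤ 1) :
    volume B ≤ ENNReal.ofReal (G * F1.card + 18 * R ^ 2 * F2.card) := by
  set M := (TT N F F1).filter Mid with hM
  set L : Set P := ⋃ a ∈ F, ⋃ b ∈ F, if a = b then {a} else {p : P | cr (b - a) (p - a) = 0}
    with hL
  have hLnull : volume L = 0 := by
    rw [hL]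
    refine (measure_biUnion_null_iff F.countable_toSet).2 ?_
    intro a _
    refine (measure_biUnion_null_iff F.countable_toSet).2 ?_
    intro b _
    by_cases hab : a = b
    · simp [hab]
    · simp only [hab, if_false]
      exact line_null a (b - a) (sub_ne_zero.2 (Ne.symm hab))
  have hsub : B ⊆ (⋃ t ∈ M, convexHull ℝ {t.1, t.2.1, t.2.2}) ∪ L := by
    intro p hp
    by_cases hpL : p ∈ L
    · right; exact hpL
    · left
      have hoff : ∀ a ∈ F, ∀ b ∈ F, a ≠ b → cr (b - a) (p - a) ≠ 0 := by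
        intro a ha b hb hab h0
        apply hpL
        rw [hL]
        simp only [mem_iUnion]
        exact ⟨a, ha, b, hb, by simpa [hab] using h0⟩
      have hpF : p ∉ F := by
        intro h
        apply hpL
        rw [hL]
        simp only [mem_iUnion]
        exact ⟨p, h, p, h, by simp⟩
      obtain ⟨v, a, b, c, hv, hd, α, β, γ, hα, hβ, hγ, hs, hpe⟩ :=
        exists_del hN F p R hR (hB2 p hp) hoff hpF
      have hd' := hd
      obtain ⟨aF, bF, cF, m1, m2, m3, _, _⟩ := hd'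
      have near : ∀ x : P, ‖v - x‖ ≤ R → ‖x - p‖ ≤ 2 * R + 1 := by
        intro x hxx
        calc ‖x - p‖ = ‖(v - p) - (v - x)‖ := by congr 1; abel
          _ ≤ ‖v - p‖ + ‖v - x‖ := norm_sub_le _ _
          _ ≤ 2 * R + 1 := by linarith
      have ha1 := hB1 p hp a aF (near a (hR _ m1))
      have hb1 := hB1 p hp b bF (near b (hR _ (m2.trans_le m1)))
      have hc1 := hB1 p hp c cF (near c (hR _ (m3.trans_le m1)))
      have hpc : p ∈ convexHull ℝ ({a, b, c} : Set P) := by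
        have ha : a ∈ convexHull ℝ ({a, b, c} : Set P) := subset_convexHull ℝ _ (by simp)
        have hb : b ∈ convexHull ℝ ({a, b, c} : Set P) := subset_convexHull ℝ _ (by simp)
        have hc : c ∈ convexHull ℝ ({a, b, c} : Set P) := subset_convexHull ℝ _ (by simp)
        rw [hpe]
        exact (convex_convexHull ℝ ({a, b, c} : Set P)).sum_mem (t := Finset.univ)
          (w := ![α, β, γ]) (z := ![a, b, c])
          (by intro i _; fin_cases i <;> simp [hα, hβ, hγ])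
          (by simp [Fin.sum_univ_three, hs]) (by intro i _; fin_cases i <;> simp [ha, hb, hc])
          |> (by simpa [Fin.sum_univ_three] using ·)
      obtain ⟨n1, n2, n3⟩ := del_ne hd
      have hone := mid_one (a := a) (b := b) (c := c) (fun h => n1 (hx a aF b bF h))
        (fun h => n2 (hx b bF c cF h)) (fun h => n3 (hx c cF a aF h))
      simp only [mem_iUnion]
      rcases hone with ⟨h, -, -⟩ | ⟨-, h, -⟩ | ⟨-, -, h⟩
      · refine ⟨(a, b, c), ?_, hpc⟩
        rw [hM, Finset.mem_filter, mem_TT]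
        exact ⟨⟨⟨ha1, hb1, hc1⟩, v, hd⟩, h⟩
      · refine ⟨(b, c, a), ?_, ?_⟩
        · rw [hM, Finset.mem_filter, mem_TT]
          exact ⟨⟨⟨hb1, hc1, ha1⟩, v, del_rot hd⟩, h⟩
        · have e : ({b, c, a} : Set P) = {a, b, c} := by
            ext x; simp only [mem_insert_iff, mem_singleton_iff]; tauto
          simp only [e]; exact hpc
      · refine ⟨(c, a, b), ?_, ?_⟩
        · rw [hM, Finset.mem_filter, mem_TT]
          exact ⟨⟨⟨hc1, ha1, hb1⟩, v, del_rot (del_rot hd)⟩, h⟩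
        · have e : ({c, a, b} : Set P) = {a, b, c} := by
            ext x; simp only [mem_insert_iff, mem_singleton_iff]; tauto
          simp only [e]; exact hpc
  have hpos : ∀ t ∈ M, 0 ≤ ar t := by
    intro t ht
    rw [hM, Finset.mem_filter, mem_TT] at ht
    obtain ⟨⟨_, v, hv⟩, _⟩ := ht
    exact hv.2.2.2.2.2.2.2.le
  calc volume B ≤ volume ((⋃ t ∈ M, convexHull ℝ {t.1, t.2.1, t.2.2}) ∪ L) := measure_mono hsub
    _ ≤ volume (⋃ t ∈ M, convexHull ℝ {t.1, t.2.1, t.2.2}) + volume L := measure_union_le _ _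
    _ = volume (⋃ t ∈ M, convexHull ℝ {t.1, t.2.1, t.2.2}) := by rw [hLnull, add_zero]
    _ ≤ ∑ t ∈ M, volume (convexHull ℝ {t.1, t.2.1, t.2.2}) := measure_biUnion_finset_le _ _
    _ ≤ ∑ t ∈ M, ENNReal.ofReal (ar t / 2) := by
        apply Finset.sum_le_sum
        intro t ht
        refine (volume_triangle_le _ _ _).trans ?_
        apply ENNReal.ofReal_le_ofReal
        rw [show cr (t.2.1 - t.1) (t.2.2 - t.1) = ar t from rfl, abs_of_nonneg (hpos t ht)]
    _ = ENNReal.ofReal (∑ t ∈ M, ar t / 2) := by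
        rw [ENNReal.ofReal_sum_of_nonneg]
        intro t ht
        have := hpos t ht
        positivity
    _ ≤ ENNReal.ofReal (G * F1.card + 18 * R ^ 2 * F2.card) := by
        apply ENNReal.ofReal_le_ofReal
        rw [hM]
        have k1 := sum_ar hN F F1 hF1 hx hgen θ
        have k2 := sum_ht hN F F1 F2 hF1 hF2 hx hgen θ S R hθ hG hR hcov hbd
        rw [← k1, hSG] at k2
        have k3 : 6 * (4 + 12 * θ) * R ^ 2 * F2.card ≤ (2 + 4 * θ) * (18 * R ^ 2 * F2.card) := by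
          have : 0 ≤ R ^ 2 * (F2.card : ℝ) := by positivity
          nlinarith
        have k4 : (2 + 4 * θ) * ∑ t ∈ (TT N F F1).filter Mid, ar t / 2 ≤
            (2 + 4 * θ) * (G * F1.card + 18 * R ^ 2 * F2.card) := by linarith
        exact le_of_mul_le_mul_left k4 (by positivity)

end

end Pool.Agent.H40.CR.FS
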