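import Pool.Graph.R_seed8.Helper484.Crit.FP

/-!
The upper bound for the affine-regular hexagon, all `θ ≥ 1 / 4`. Adapted from
`Pool/Graph/R_seed8/Helper484/Crit/FP.lean` (the case `θ = 1 / 4`).
-/

set_option autoImplicit false

namespace Pool.Agent.H40.CR.Hex

open Pool.Agent.Helper484.Crit Pool.Agent.Helper484.Crit.FJ Pool.Agent.Helper484.Crit.FO
  Pool.Agent.Helper484.Crit.FM Pool.Agent.Helper484.Crit.FP

open MeasureTheory Set Filter Topology
open scoped ENNReal Pointwise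

/-- A strip of length `M` covered by `n` translates: `M h ≤ 2 n`. -/
theorem strip_two {H : Set P} {u₁ u₂ u₃ : P} (hH : Hexa H u₁ u₂ u₃) (h : ℝ)
    (hh : h = max |u₁.2| (max |u₂.2| |u₃.2|)) (M x₀ y₀ : ℝ) (n : ℕ) (z : Fin n → P)
    (hM : 0 < M) (hcov : ∀ x ∈ Icc x₀ (x₀ + M), ∃ i, ((x, y₀) : P) - z i ∈ H) :
    M * h ≤ 2 * n := by
  obtain ⟨hpos, -, -, -, -, -, hle, -, -⟩ := chord_facts hH h hh
  have h1 := chord_cover hH x₀ M y₀ hM n z hcov
  calc M * h ≤ (∑ i, chord H (y₀ - (z i).2)) * h := mul_le_mul_of_nonneg_right h1 hpos.le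
    _ = ∑ i, h * chord H (y₀ - (z i).2) := by rw [Finset.sum_mul]; simp only [mul_comm]
    _ ≤ ∑ i : Fin n, (2 : ℝ) := Finset.sum_le_sum fun i _ => hle _
    _ = 2 * n := by simp [mul_comm]

theorem hex_upper (θ : ℝ) (hθ : 1 / 4 ≤ θ) (ε : ℝ) (hε : 0 < ε) :
    ∃ n₀ : ℕ, ∀ n ≥ n₀, ∀ D : Set P, IsCompact D → Convex ℝ D → CoveredBy H0 n D →
      volume (D + θ • H0) ≤ ENNReal.ofReal ((2 + 4 * θ + ε) * n) := by
  have hcs : ∀ c s : ℝ, c ^ 2 + s ^ 2 = 1 → |c| ≤ 1 ∧ |s| ≤ 1 := by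
    intro c s h
    constructor
    · rw [← sq_le_one_iff_abs_le_one]; nlinarith [sq_nonneg s]
    · rw [← sq_le_one_iff_abs_le_one]; nlinarith [sq_nonneg c]
  have hadd : ∀ u v : ℝ, |u| ≤ 1 → |v| ≤ 1 → |u + v| ≤ 2 := by
    intro u v hu hv
    have := abs_add_le u v
    linarith
  have hmul : ∀ u v : ℝ, |u| ≤ 1 → |v| ≤ 1 → |u * v| ≤ 1 := by
    intro u v hu hv
    rw [abs_mul]
    exact mul_le_one₀ hu (abs_nonneg _) hv
  refine assemble H0 H0_compact H0_convex ⟨by simp, by simp, by simp⟩ θ (2 + 4 * θ) 2 (by linarith)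
    (by linarith) ?_ ?_ ε hε
  · rintro c s h z ⟨x, ⟨hx1, hx2, -⟩, rfl⟩
    obtain ⟨hc, hs⟩ := hcs c s h
    constructor
    · show |c * x.1 + s * x.2| ≤ 2
      exact hadd _ _ (hmul _ _ hc hx1) (hmul _ _ hs hx2)
    · show |-s * x.1 + c * x.2| ≤ 2
      exact hadd _ _ (hmul _ _ (by rwa [abs_neg]) hx1) (hmul _ _ hc hx2)
  · intro c s h
    obtain ⟨hc, hs⟩ := hcs c s h
    set h0 : ℝ := max |(rot c s (1, 1)).2| (max |(rot c s (1, 0)).2| |(rot c s (0, 1)).2|) with hh0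
    have hH := hexa_rot h
    have hle : h0 ≤ 2 := by
      rw [hh0]
      refine max_le ?_ (max_le ?_ ?_)
      · show |-s * 1 + c * 1| ≤ 2
        exact hadd _ _ (by rwa [mul_one, abs_neg]) (by rwa [mul_one])
      · show |-s * 1 + c * 0| ≤ 2
        exact hadd _ _ (by rwa [mul_one, abs_neg]) (by simp)
      · show |-s * 0 + c * 1| ≤ 2
        exact hadd _ _ (by simp) (by rwa [mul_one])
    refine ⟨h0, h0, hle, hle, fun z hz => ?_, ?_⟩
    · exact abs_le.1 (hH.snd_le hh0 hz)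
    · intro M w x₀ y₀ n z hM hw hcov
      have h1 := hex_strip hH h0 hh0 M w x₀ y₀ n z hM hw hcov
      have h2 := strip_two hH h0 hh0 M x₀ y₀ n z hM
        (fun x hx => hcov x hx y₀ ⟨le_rfl, by linarith⟩)
      have e : M * (w + θ * (h0 + h0)) = M * (w + h0 / 2) + 2 * (θ - 1 / 4) * (M * h0) := by ring
      rw [e]
      have h3 := mul_le_mul_of_nonneg_left h2 (by linarith : 0 ≤ 2 * (θ - 1 / 4))
      linarith

end Pool.Agent.H40.CR.Hex
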